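import Mathlib
import Pool.Agent.Q84.VK7

/-! MP_c47ae4 (Q1): the Riesz logarithmic means `R_{M_n}` are bounded from `H_p` to `L_p`, even
with the supremum over `n` inside, for every bounded Vilenkin system and every `0 < p ≤ 1`. -/

set_option autoImplicit false
open MeasureTheory Q84.VK
open scoped ENNReal NNReal

namespace Pool.Agent.Results.MP_c47ae4_an.RieszMeansBounded

/-- `‖f‖_{H_p} = ‖sup_n |f^{(n)}|‖_p` -/
noncomputable def Hnorm {m : ℕ → ℕ} [∀ k, NeZero (m k)] (p : ℝ) (f : ℕ → G m → ℂ) : ℝ≥0∞ :=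
  Ln p fun x => ⨆ n, ‖f n x‖ₑ

/-- For every bounded Vilenkin sequence `m` and `0 < p ≤ 1`, every martingale `f ∈ H_p` satisfies
`sup_n ‖R_{M_n} f‖_p < ∞`, and in fact `‖sup_n |R_{M_n} f|‖_p ≤ C ‖f‖_{H_p}`. -/
theorem result (m : ℕ → ℕ) [∀ k, NeZero (m k)] (hm : ∀ k, 2 ≤ m k) (hbdd : ∃ B, ∀ k, m k ≤ B)
    (p : ℝ) (hp : 0 < p) (hp1 : p ≤ 1) :
    (∀ f : ℕ → G m → ℂ, Martingale f (Fil m) (mu m) → Hnorm p f < ⊤ →
      ⨆ n, Ln p (fun x => ‖R f (M m n) x‖ₑ) < ⊤) ∧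
    ∃ C : ℝ≥0, ∀ f : ℕ → G m → ℂ, Martingale f (Fil m) (mu m) →
      Ln p (fun x => ⨆ n, ‖R f (M m n) x‖ₑ) ≤ C * Hnorm p f := by
  obtain ⟨B, hB⟩ := hbdd
  obtain ⟨C, hC, hCf⟩ := maximal_bound hm hB hp hp1
  refine ⟨fun f hf hfin => ?_, C.toNNReal, fun f hf => ?_⟩
  · have h1 := hCf f (isMart_of_martingale hf)
    refine lt_of_le_of_lt ?_ (lt_of_le_of_lt h1 (ENNReal.mul_lt_top hC.lt_top hfin))
    apply iSup_le
    intro n
    unfold Ln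
    apply ENNReal.rpow_le_rpow _ (by positivity)
    apply lintegral_mono
    intro x
    exact ENNReal.rpow_le_rpow (le_iSup (fun n => ‖R f (M m n) x‖ₑ) n) hp.le
  · rw [ENNReal.coe_toNNReal hC]
    exact hCf f (isMart_of_martingale hf)

end Pool.Agent.Results.MP_c47ae4_an.RieszMeansBounded
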